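import Pool.Agent.Y335.FL.Local11

/-!
# Cuts with at most three edges in vertex-transitive graphs

In a connected vertex-transitive simple graph of degree at least four, or of degree three without
triangles, every edge cut with at most three edges isolates a vertex.
-/

set_option autoImplicit false
set_option linter.unusedSectionVars false

namespace Pool.Agent.Q164.VT

open Finset

section

variable {V E : Type} [Fintype V] [DecidableEq V] [Fintype E] [DecidableEq E]

/-- the boundary of `X` -/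
def Bd (src dst : E → V) (X : Finset V) : Finset E :=
  univ.filter (fun e => ¬ (src e ∈ X ↔ dst e ∈ X))

/-- the edges at `v` -/
def Inc (src dst : E → V) (v : V) : Finset E := univ.filter (fun e => src e = v ∨ dst e = v)

/-- adjacency -/
def Ad (src dst : E → V) (x y : V) : Prop :=
  ∃ e, (src e = x ∧ dst e = y) ∨ (src e = y ∧ dst e = x)

/-- `σ` is an automorphism -/
def Aut (src dst : E → V) (σ : Equiv.Perm V) : Prop :=
  ∀ u v, Ad src dst u v ↔ Ad src dst (σ u) (σ v)

/-- connected vertex-transitive simple graphs of degree `d` -/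
structure VT (src dst : E → V) (d : ℕ) : Prop where
  loopless : ∀ e, src e ≠ dst e
  simple : ∀ e e', s(src e, dst e) = s(src e', dst e') → e = e'
  conn : ∀ X : Finset V, X.Nonempty → X ≠ univ → (Bd src dst X).Nonempty
  reg : ∀ v, (Inc src dst v).card = d
  trans : ∀ x y, ∃ σ : Equiv.Perm V, Aut src dst σ ∧ σ x = y

variable {src dst : E → V} {d : ℕ}

theorem mem_Bd {X : Finset V} {e : E} : e ∈ Bd src dst X ↔ ¬ (src e ∈ X ↔ dst e ∈ X) := by
  simp [Bd]

theorem mem_Inc {v : V} {e : E} : e ∈ Inc src dst v ↔ src e = v ∨ dst e = v := by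
  simp [Inc]

theorem card_Bd (X : Finset V) :
    (Bd src dst X).card = ∑ e, if ¬ (src e ∈ X ↔ dst e ∈ X) then 1 else 0 := by
  rw [Bd, card_filter]

theorem submod (A B : Finset V) : (Bd src dst (A ∩ B)).card + (Bd src dst (A ∪ B)).card ≤
    (Bd src dst A).card + (Bd src dst B).card := by
  rw [card_Bd, card_Bd, card_Bd, card_Bd, ← sum_add_distrib, ← sum_add_distrib]
  refine sum_le_sum fun e _ => ?_
  simp only [mem_inter, mem_union]
  by_cases h1 : src e ∈ A <;> by_cases h2 : src e ∈ B <;> by_cases h3 : dst e ∈ A <;>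
    by_cases h4 : dst e ∈ B <;> simp [h1, h2, h3, h4]

theorem submod' (A B : Finset V) : (Bd src dst (A \ B)).card + (Bd src dst (B \ A)).card ≤
    (Bd src dst A).card + (Bd src dst B).card := by
  rw [card_Bd, card_Bd, card_Bd, card_Bd, ← sum_add_distrib, ← sum_add_distrib]
  refine sum_le_sum fun e _ => ?_
  simp only [mem_sdiff]
  by_cases h1 : src e ∈ A <;> by_cases h2 : src e ∈ B <;> by_cases h3 : dst e ∈ A <;>
    by_cases h4 : dst e ∈ B <;> simp [h1, h2, h3, h4]

theorem Bd_compl (X : Finset V) : Bd src dst Xᶜ = Bd src dst X := by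
  ext e
  rw [mem_Bd, mem_Bd, mem_compl, mem_compl]
  tauto

/-- the edges inside `A` -/
def Ins (src dst : E → V) (A : Finset V) : Finset E :=
  univ.filter (fun e => src e ∈ A ∧ dst e ∈ A)

theorem handshake (hl : ∀ e, src e ≠ dst e) (A : Finset V) :
    ∑ v ∈ A, (Inc src dst v).card = 2 * (Ins src dst A).card + (Bd src dst A).card := by
  have h1 : ∀ v, (Inc src dst v).card =
      ∑ e, ((if src e = v then 1 else 0) + (if dst e = v then 1 else 0)) := by
    intro v
    rw [Inc, card_filter]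
    refine sum_congr rfl fun e _ => ?_
    have := hl e
    by_cases h2 : src e = v
    · have h3 : dst e ≠ v := fun h => this (h2.trans h.symm)
      simp [h2, h3]
    · simp [h2]
  simp_rw [h1]
  rw [sum_comm, Ins, card_filter, card_Bd, mul_sum, ← sum_add_distrib]
  refine sum_congr rfl fun e _ => ?_
  rw [sum_add_distrib, sum_ite_eq, sum_ite_eq]
  by_cases h2 : src e ∈ A <;> by_cases h3 : dst e ∈ A <;> simp [h2, h3]

theorem card_Ins (h : ∀ e, src e ≠ dst e) (h' : ∀ e e', s(src e, dst e) = s(src e', dst e') → e = e')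
    (A : Finset V) : (Ins src dst A).card ≤ A.card.choose 2 ∧
    ((Ins src dst A).card = A.card.choose 2 → ∀ a ∈ A, ∀ b ∈ A, a ≠ b → Ad src dst a b) := by
  have hinj : Set.InjOn (fun e => s(src e, dst e)) (Ins src dst A : Set E) :=
    fun e _ e' _ he => h' e e' he
  have hc : ((Ins src dst A).image (fun e => s(src e, dst e))).card = (Ins src dst A).card :=
    card_image_of_injOn hinj
  have hs : (Ins src dst A).image (fun e => s(src e, dst e)) ⊆ A.offDiag.image Sym2.mk.uncurry := by
    intro p hp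
    obtain ⟨e, he, rfl⟩ := mem_image.1 hp
    rw [Ins, mem_filter] at he
    refine mem_image.2 ⟨(src e, dst e), ?_, rfl⟩
    rw [mem_offDiag]
    exact ⟨he.2.1, he.2.2, h e⟩
  have hcard : (A.offDiag.image Sym2.mk.uncurry).card = A.card.choose 2 := Sym2.card_image_offDiag A
  refine ⟨by rw [← hc, ← hcard]; exact card_le_card hs, fun heq a ha b hb hab => ?_⟩
  have h1 := eq_of_subset_of_card_le hs (by rw [hc, hcard, heq])
  have h2 : s(a, b) ∈ A.offDiag.image Sym2.mk.uncurry :=
    mem_image.2 ⟨(a, b), by rw [mem_offDiag]; exact ⟨ha, hb, hab⟩, rfl⟩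
  rw [← h1] at h2
  obtain ⟨e, _, he⟩ := mem_image.1 h2
  rcases Sym2.eq_iff.1 he with ⟨h3, h4⟩ | ⟨h3, h4⟩
  · exact ⟨e, Or.inl ⟨h3, h4⟩⟩
  · exact ⟨e, Or.inr ⟨h3, h4⟩⟩

/-- the permutation of the edges -/
theorem exists_tau' (hs : ∀ e e', s(src e, dst e) = s(src e', dst e') → e = e')
    (σ : Equiv.Perm V) (hσ : Aut src dst σ) :
    ∃ τ : Equiv.Perm E, ∀ e, (src (τ e) = σ (src e) ∧ dst (τ e) = σ (dst e)) ∨
      (src (τ e) = σ (dst e) ∧ dst (τ e) = σ (src e)) := by
  have h1 : ∀ e, ∃ f, (src f = σ (src e) ∧ dst f = σ (dst e)) ∨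
      (src f = σ (dst e) ∧ dst f = σ (src e)) := by
    intro e
    exact (hσ (src e) (dst e)).1 ⟨e, Or.inl ⟨rfl, rfl⟩⟩
  choose t ht using h1
  have hinj : Function.Injective t := by
    intro e e' he
    apply hs
    have a1 : s(src (t e), dst (t e)) = s(σ (src e), σ (dst e)) := by
      rcases ht e with ⟨h1, h2⟩ | ⟨h1, h2⟩
      · rw [h1, h2]
      · rw [h1, h2, Sym2.eq_swap]
    have a2 : s(src (t e'), dst (t e')) = s(σ (src e'), σ (dst e')) := by
      rcases ht e' with ⟨h1, h2⟩ | ⟨h1, h2⟩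
      · rw [h1, h2]
      · rw [h1, h2, Sym2.eq_swap]
    rw [he, a2] at a1
    rcases Sym2.eq_iff.1 a1 with ⟨h3, h4⟩ | ⟨h3, h4⟩
    · rw [σ.injective h3, σ.injective h4]
    · rw [σ.injective h3, σ.injective h4, Sym2.eq_swap]
  exact ⟨Equiv.ofBijective t (Finite.injective_iff_bijective.1 hinj), ht⟩

theorem exists_tau (h : VT src dst d) (σ : Equiv.Perm V) (hσ : Aut src dst σ) :
    ∃ τ : Equiv.Perm E, ∀ e, (src (τ e) = σ (src e) ∧ dst (τ e) = σ (dst e)) ∨
      (src (τ e) = σ (dst e) ∧ dst (τ e) = σ (src e)) := exists_tau' h.simple σ hσ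

theorem Bd_map {σ : Equiv.Perm V} {τ : Equiv.Perm E}
    (hτ : ∀ e, (src (τ e) = σ (src e) ∧ dst (τ e) = σ (dst e)) ∨
      (src (τ e) = σ (dst e) ∧ dst (τ e) = σ (src e))) (X : Finset V) (e : E) :
    τ e ∈ Bd src dst (X.map σ.toEmbedding) ↔ e ∈ Bd src dst X := by
  rw [mem_Bd, mem_Bd]
  have h : ∀ a, σ a ∈ X.map σ.toEmbedding ↔ a ∈ X := fun a => mem_map' σ.toEmbedding
  rcases hτ e with ⟨h1, h2⟩ | ⟨h1, h2⟩
  · rw [h1, h2, h, h]
  · rw [h1, h2, h, h]
    tauto

theorem card_Bd_map {σ : Equiv.Perm V} {τ : Equiv.Perm E}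
    (hτ : ∀ e, (src (τ e) = σ (src e) ∧ dst (τ e) = σ (dst e)) ∨
      (src (τ e) = σ (dst e) ∧ dst (τ e) = σ (src e))) (X : Finset V) :
    (Bd src dst (X.map σ.toEmbedding)).card = (Bd src dst X).card := by
  rw [← card_map τ.toEmbedding (s := Bd src dst X)]
  congr 1
  ext f
  constructor
  · intro hf
    refine mem_map.2 ⟨τ.symm f, ?_, by simp⟩
    rw [← Bd_map hτ]
    simpa using hf
  · intro hf
    obtain ⟨e, he, rfl⟩ := mem_map.1 hf
    exact (Bd_map hτ X e).2 he

theorem Bd_single (h : VT src dst d) {X : Finset V} (hX : X.card = 1) :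
    (Bd src dst X).card = d := by
  obtain ⟨v, rfl⟩ := card_eq_one.1 hX
  rw [← h.reg v]
  congr 1
  ext e
  rw [mem_Bd, mem_Inc, mem_singleton, mem_singleton]
  have := h.loopless e
  constructor
  · intro h1
    tauto
  · rintro (h1 | h1) h2
    · exact this (h1.trans (h2.1 h1).symm)
    · exact this ((h2.2 h1).trans h1.symm)

/-- **Cuts with at most three edges are trivial.** -/
theorem cuts (h : VT src dst d) (hd : 3 ≤ d)
    (ht : d = 3 → ∀ a b c, Ad src dst a b → Ad src dst b c → ¬ Ad src dst a c) (X : Finset V)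
    (hX : 2 ≤ X.card) (hX' : 2 ≤ Xᶜ.card) : 4 ≤ (Bd src dst X).card := by
  classical
  by_contra hlt
  -- the class of the small cuts
  set S : Finset (Finset V) :=
    univ.filter (fun X => 2 ≤ X.card ∧ 2 ≤ Xᶜ.card ∧ (Bd src dst X).card ≤ 3) with hS
  have hmS : ∀ X, X ∈ S ↔ 2 ≤ X.card ∧ 2 ≤ Xᶜ.card ∧ (Bd src dst X).card ≤ 3 := by
    intro X
    simp [hS]
  have hne : S.Nonempty := ⟨X, (hmS X).2 ⟨hX, hX', by omega⟩⟩
  obtain ⟨A0, hA0, hmin0⟩ := exists_min_image S (fun X => (Bd src dst X).card) hne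
  set S' := S.filter (fun X => (Bd src dst X).card = (Bd src dst A0).card) with hS'
  have hne' : S'.Nonempty := ⟨A0, by rw [hS', mem_filter]; exact ⟨hA0, rfl⟩⟩
  obtain ⟨A, hA, hmin⟩ := exists_min_image S' (fun X => X.card) hne'
  rw [hS', mem_filter] at hA
  obtain ⟨hAS, hAk⟩ := hA
  obtain ⟨k, hk⟩ : ∃ k, k = (Bd src dst A).card := ⟨_, rfl⟩
  obtain ⟨hA2, hA2', hA3⟩ := (hmS A).1 hAS
  have hmin1 : ∀ X ∈ S, k ≤ (Bd src dst X).card := by
    intro X hX
    rw [hk, hAk]
    exact hmin0 X hX
  have hmin2 : ∀ X ∈ S, (Bd src dst X).card = k → A.card ≤ X.card := by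
    intro X hX hXk
    refine hmin X ?_
    rw [hS', mem_filter]
    exact ⟨hX, by rw [hXk, hk, hAk]⟩
  have hn : ∀ X : Finset V, X.card + Xᶜ.card = Fintype.card V := fun X => card_add_card_compl X
  have hhalf : A.card ≤ Aᶜ.card := by
    refine hmin2 Aᶜ ((hmS _).2 ⟨hA2', by rw [compl_compl]; exact hA2, ?_⟩) ?_
    · rw [Bd_compl]
      exact hA3
    · rw [Bd_compl, hk]
  have hall : ∀ X : Finset V, X.Nonempty → X ≠ univ → k ≤ (Bd src dst X).card := by
    intro X h1 h2
    have h3 : 0 < X.card := card_pos.2 h1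
    have h4 : 0 < Xᶜ.card := by
      rw [card_pos, nonempty_iff_ne_empty]
      intro h5
      exact h2 ((compl_eq_empty_iff X).1 h5)
    by_cases h5 : X.card = 1
    · rw [Bd_single h h5]
      omega
    · by_cases h6 : Xᶜ.card = 1
      · rw [← Bd_compl, Bd_single h h6]
        omega
      · by_cases h7 : (Bd src dst X).card ≤ 3
        · exact hmin1 X ((hmS X).2 ⟨by omega, by omega, h7⟩)
        · omega
  have hk1 : 1 ≤ k := by
    rw [hk]
    refine card_pos.2 (h.conn A (card_pos.1 (by omega)) ?_)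
    intro h1
    rw [h1] at hA2'
    simp at hA2'
  -- the images of `A`
  have key : ∀ (σ : Equiv.Perm V), Aut src dst σ → (A ∩ A.map σ.toEmbedding).Nonempty →
      A.map σ.toEmbedding = A := by
    intro σ hσ hne
    obtain ⟨τ, hτ⟩ := exists_tau h σ hσ
    by_contra hne2
    set B := A.map σ.toEmbedding with hB
    have hBc : B.card = A.card := card_map _
    have hBk : (Bd src dst B).card = k := by
      rw [hB, card_Bd_map hτ, hk]
    have e1 := card_union_add_card_inter A B
    have e2 : 0 < (A ∩ B).card := card_pos.2 hne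
    have e3 := hn A
    have e4 : (A ∪ B) ≠ univ := by
      intro h1
      rw [h1, card_univ] at e1
      omega
    have e5 : A ∩ B ≠ univ := by
      intro h1
      have h2 := card_le_card (inter_subset_left : A ∩ B ⊆ A)
      rw [h1, card_univ] at h2
      omega
    have s1 := submod (src := src) (dst := dst) A B
    have s2 := hall (A ∩ B) hne e5
    have s3 := hall (A ∪ B) (hne.mono (inter_subset_left.trans subset_union_left)) e4
    have s4 : (Bd src dst (A ∩ B)).card = k := by omega
    have hAB : ¬ A ⊆ B := by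
      intro h1
      exact hne2 (eq_of_subset_of_card_le h1 (by omega)).symm
    have hBA : ¬ B ⊆ A := by
      intro h1
      exact hne2 (eq_of_subset_of_card_le h1 (by omega))
    have c1 : (A ∩ B).card < A.card := by
      refine card_lt_card (ssubset_of_subset_of_ne inter_subset_left ?_)
      intro h1
      exact hAB (inter_eq_left.1 h1)
    have c2 : (A ∩ B).card = 1 := by
      by_contra h1
      have h2 : 2 ≤ (A ∩ B).card := by omega
      have h3 := hn (A ∩ B)
      have := hmin2 (A ∩ B) ((hmS _).2 ⟨h2, by omega, by omega⟩) s4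
      omega
    have c3 : d = k := by rw [← s4, Bd_single h c2]
    have e6 := card_sdiff_add_card_inter A B
    have e7 := card_sdiff_add_card_inter B A
    rw [inter_comm B A] at e7
    have s5 := submod' (src := src) (dst := dst) A B
    have n1 : (A \ B).Nonempty := by
      rw [sdiff_nonempty]
      exact hAB
    have n2 : (B \ A).Nonempty := by
      rw [sdiff_nonempty]
      exact hBA
    have u1 : A \ B ≠ univ := by
      intro h1
      have h2 := card_le_card (sdiff_subset : A \ B ⊆ A)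
      rw [h1, card_univ] at h2
      omega
    have u2 : B \ A ≠ univ := by
      intro h1
      have h2 := card_le_card (sdiff_subset : B \ A ⊆ B)
      rw [h1, card_univ] at h2
      omega
    have s6 := hall _ n1 u1
    have s7 := hall _ n2 u2
    have s8 : (Bd src dst (A \ B)).card = k := by omega
    have c4 : (A \ B).card = 1 := by
      by_contra h1
      have h0 := card_pos.2 n1
      have h3 := hn (A \ B)
      have := hmin2 (A \ B) ((hmS _).2 ⟨by omega, by omega, by omega⟩) s8
      omega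
    have c5 : A.card = 2 := by omega
    have hs := handshake h.loopless A
    rw [sum_congr rfl fun v _ => h.reg v, sum_const, smul_eq_mul, c5] at hs
    omega
  -- every vertex of `A` has an edge which leaves `A`
  have hAne : (Bd src dst A).Nonempty := card_pos.1 (by omega)
  obtain ⟨e0, he0⟩ := hAne
  obtain ⟨v0, hv0, hv0A⟩ : ∃ v, e0 ∈ Inc src dst v ∧ v ∈ A := by
    rw [mem_Bd] at he0
    by_cases h1 : src e0 ∈ A
    · exact ⟨src e0, mem_Inc.2 (Or.inl rfl), h1⟩
    · exact ⟨dst e0, mem_Inc.2 (Or.inr rfl), by tauto⟩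
  have hout : ∀ w : V, ∃ e, w ∈ A → e ∈ Inc src dst w ∧ e ∈ Bd src dst A := by
    intro w
    by_cases hw : w ∈ A
    · obtain ⟨σ, hσ, hσw⟩ := h.trans v0 w
      obtain ⟨τ, hτ⟩ := exists_tau h σ hσ
      have h1 : A.map σ.toEmbedding = A := by
        refine key σ hσ ⟨w, ?_⟩
        rw [mem_inter]
        exact ⟨hw, mem_map.2 ⟨v0, hv0A, hσw⟩⟩
      refine ⟨τ e0, fun _ => ⟨?_, ?_⟩⟩
      · rw [mem_Inc] at hv0 ⊢
        rcases hτ e0 with ⟨h2, h3⟩ | ⟨h2, h3⟩ <;> rcases hv0 with h4 | h4
        · left; rw [h2, h4, hσw]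
        · right; rw [h3, h4, hσw]
        · right; rw [h3, h4, hσw]
        · left; rw [h2, h4, hσw]
      · have := (Bd_map hτ A e0).2 he0
        rwa [h1] at this
    · exact ⟨e0, fun h => absurd h hw⟩
  choose g hg using hout
  have hAk3 : A.card ≤ k := by
    rw [hk]
    refine card_le_card_of_injOn g (fun w hw => (hg w hw).2) ?_
    intro w hw w' hw' hww
    obtain ⟨h1, h2⟩ := hg w hw
    obtain ⟨h3, _⟩ := hg w' hw'
    rw [hww] at h1 h2
    rw [mem_Inc] at h1 h3
    rw [mem_Bd] at h2
    have hw1 : w ∈ A := hw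
    have hw2 : w' ∈ A := hw'
    rcases h1 with h1 | h1 <;> rcases h3 with h3 | h3
    · exact h1.symm.trans h3
    · exfalso
      rw [h1, h3] at h2
      tauto
    · exfalso
      rw [h1, h3] at h2
      tauto
    · exact h1.symm.trans h3
  have hs := handshake h.loopless A
  rw [sum_congr rfl fun v _ => h.reg v, sum_const, smul_eq_mul, ← hk] at hs
  obtain ⟨i1, i2⟩ := card_Ins h.loopless h.simple A
  have hc : A.card = 2 ∨ A.card = 3 := by omega
  rcases hc with hc | hc
  · rw [hc] at hs i1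
    have : Nat.choose 2 2 = 1 := rfl
    omega
  · rw [hc] at hs i1 i2
    have h32 : Nat.choose 3 2 = 3 := rfl
    rw [h32] at i1 i2
    have hd3 : d = 3 := by omega
    have hadj := i2 (by omega)
    obtain ⟨a, b, c, hab, hac, hbc, hAe⟩ := card_eq_three.1 hc
    have ma : a ∈ A := by rw [hAe]; simp
    have mb : b ∈ A := by rw [hAe]; simp
    have mc : c ∈ A := by rw [hAe]; simp
    exact ht hd3 a b c (hadj a ma b mb hab) (hadj b mb c mc hbc) (hadj a ma c mc hac)

end

end Pool.Agent.Q164.VT
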