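import Pool.Agent.Y335.FL.Main
import Pool.Agent.Q164.VT.Cut

/-!
# Nowhere-zero 5-flows in vertex-transitive graphs with short circuits
-/

set_option autoImplicit false
set_option linter.unusedSectionVars false

namespace Pool.Agent.Q164.VT

open Finset Pool.Agent.TH676.Z Pool.Agent.Y335.FL

section

variable {V E : Type} [Fintype V] [DecidableEq V] [Fintype E] [DecidableEq E]
variable {src dst : E → V} {d : ℕ}

/-- a cycle: the support of a flow modulo five with the values `0, 1, -1` -/
def Cyc (src dst : E → V) (C : Finset E) : Prop :=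
  ∃ z : E → ZMod 5, (∀ v, bd src dst z v = 0) ∧ (∀ e, z e = 0 ∨ z e = 1 ∨ z e = -1) ∧
    ∀ e, z e ≠ 0 ↔ e ∈ C

/-- the edge `e` is in a triangle -/
def InT (src dst : E → V) (e : E) : Prop :=
  ∃ c, Ad src dst (src e) c ∧ Ad src dst (dst e) c

theorem Ad_symm {x y : V} (h : Ad src dst x y) : Ad src dst y x := by
  obtain ⟨e, he | he⟩ := h
  · exact ⟨e, Or.inr he⟩
  · exact ⟨e, Or.inl he⟩

theorem Ad_ne (hl : ∀ e, src e ≠ dst e) {x y : V} (h : Ad src dst x y) : x ≠ y := by
  obtain ⟨e, ⟨h1, h2⟩ | ⟨h1, h2⟩⟩ := h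
  · rintro rfl
    exact hl e (h1.trans h2.symm)
  · rintro rfl
    exact hl e (h1.trans h2.symm)

theorem InT_iff {e : E} {x y : V} (h : s(src e, dst e) = s(x, y)) :
    InT src dst e ↔ ∃ c, Ad src dst x c ∧ Ad src dst y c := by
  rcases Sym2.eq_iff.1 h with ⟨h1, h2⟩ | ⟨h1, h2⟩
  · rw [InT, h1, h2]
  · rw [InT, h1, h2]
    exact exists_congr fun c => and_comm

theorem InT_tau {σ : Equiv.Perm V} (hσ : Aut src dst σ) {τ : Equiv.Perm E}
    (hτ : ∀ e, (src (τ e) = σ (src e) ∧ dst (τ e) = σ (dst e)) ∨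
      (src (τ e) = σ (dst e) ∧ dst (τ e) = σ (src e))) (e : E) :
    InT src dst (τ e) ↔ InT src dst e := by
  have h1 : s(src (τ e), dst (τ e)) = s(σ (src e), σ (dst e)) := by
    rcases hτ e with ⟨h1, h2⟩ | ⟨h1, h2⟩
    · rw [h1, h2]
    · rw [h1, h2, Sym2.eq_swap]
  rw [InT_iff h1, InT]
  constructor
  · rintro ⟨c, h2, h3⟩
    refine ⟨σ.symm c, (hσ _ _).2 ?_, (hσ _ _).2 ?_⟩
    · rwa [Equiv.apply_symm_apply]
    · rwa [Equiv.apply_symm_apply]
  · rintro ⟨c, h2, h3⟩
    exact ⟨σ c, (hσ _ _).1 h2, (hσ _ _).1 h3⟩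

theorem Cyc_map (hl : ∀ e, src e ≠ dst e) {σ : Equiv.Perm V} {τ : Equiv.Perm E}
    (hτ : ∀ e, (src (τ e) = σ (src e) ∧ dst (τ e) = σ (dst e)) ∨
      (src (τ e) = σ (dst e) ∧ dst (τ e) = σ (src e))) {C : Finset E} (h : Cyc src dst C) :
    Cyc src dst (C.map τ.toEmbedding) := by
  obtain ⟨z, h1, h2, h3⟩ := h
  obtain ⟨sg, hsg⟩ : ∃ sg : E → ZMod 5, ∀ e, sg e = if src (τ e) = σ (src e) then 1 else -1 :=
    ⟨_, fun e => rfl⟩
  have hsg1 : ∀ e, sg e = 1 ∨ sg e = -1 := by
    intro e
    rw [hsg]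
    split_ifs
    · exact Or.inl rfl
    · exact Or.inr rfl
  refine ⟨fun f => sg (τ.symm f) * z (τ.symm f), fun w => ?_, fun f => ?_, fun f => ?_⟩
  · obtain ⟨v, rfl⟩ := σ.surjective w
    rw [← h1 v]
    unfold bd
    rw [← Equiv.sum_comp τ]
    refine sum_congr rfl fun e _ => ?_
    simp only [Equiv.symm_apply_apply]
    rcases hτ e with ⟨h4, h5⟩ | ⟨h4, h5⟩
    · have h6 : sg e = 1 := by rw [hsg, if_pos h4]
      rw [h4, h5, h6, one_mul]
      simp only [σ.injective.eq_iff]
    · have h6 : sg e = -1 := by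
        rw [hsg, if_neg]
        rw [h4]
        intro h7
        exact hl e (σ.injective h7).symm
      rw [h4, h5, h6]
      simp only [σ.injective.eq_iff]
      by_cases a1 : dst e = v <;> by_cases a2 : src e = v <;> simp [a1, a2]
  · rcases hsg1 (τ.symm f) with h4 | h4 <;> rcases h2 (τ.symm f) with h5 | h5 | h5 <;>
      simp [h4, h5]
  · rw [mem_map_equiv, ← h3]
    rcases hsg1 (τ.symm f) with h4 | h4 <;> simp [h4]

theorem dart {u v : V} (h : Ad src dst u v) : ∃ f, s(src f, dst f) = s(u, v) ∧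
    ∃ z : E → ZMod 5, (∀ x, bd src dst z x = (if u = x then 1 else 0) - (if v = x then 1 else 0)) ∧
      (∀ e, e ≠ f → z e = 0) ∧ (z f = 1 ∨ z f = -1) := by
  obtain ⟨f, ⟨h1, h2⟩ | ⟨h1, h2⟩⟩ := h
  · refine ⟨f, by rw [h1, h2], fun e => if e = f then 1 else 0, fun x => ?_, fun e he => if_neg he,
      Or.inl (if_pos rfl)⟩
    unfold bd
    rw [sum_eq_single f]
    · rw [h1, h2]
      simp
    · intro e _ he
      simp [he]
    · intro h
      exact absurd (mem_univ f) h
  · refine ⟨f, by rw [h1, h2, Sym2.eq_swap], fun e => if e = f then -1 else 0, fun x => ?_,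
      fun e he => if_neg he, Or.inr (if_pos rfl)⟩
    unfold bd
    rw [sum_eq_single f]
    · rw [h1, h2]
      by_cases a1 : v = x <;> by_cases a2 : u = x <;> simp [a1, a2]
    · intro e _ he
      simp [he]
    · intro h
      exact absurd (mem_univ f) h

theorem bd_add' (f g : E → ZMod 5) (x : V) :
    bd src dst (fun e => f e + g e) x = bd src dst f x + bd src dst g x := by
  unfold bd
  rw [← sum_add_distrib]
  refine sum_congr rfl fun e _ => ?_
  split_ifs <;> ring

/-- a triangle is a cycle -/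
theorem tri (hl : ∀ e, src e ≠ dst e) {a b c : V} (hab : Ad src dst a b) (hbc : Ad src dst b c)
    (hca : Ad src dst c a) : ∃ C, Cyc src dst C ∧ C.card ≤ 3 ∧
      (∀ f ∈ C, s(src f, dst f) = s(a, b) ∨ s(src f, dst f) = s(b, c) ∨ s(src f, dst f) = s(c, a)) ∧
      ∃ f ∈ C, s(src f, dst f) = s(a, b) := by
  have n1 := Ad_ne hl hab
  have n2 := Ad_ne hl hbc
  have n3 := Ad_ne hl hca
  obtain ⟨f1, e1, z1, b1, s1, v1⟩ := dart hab
  obtain ⟨f2, e2, z2, b2, s2, v2⟩ := dart hbc
  obtain ⟨f3, e3, z3, b3, s3, v3⟩ := dart hca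
  have d12 : f1 ≠ f2 := by
    rintro rfl
    rw [e1] at e2
    rcases Sym2.eq_iff.1 e2 with ⟨h, _⟩ | ⟨h, _⟩
    · exact n1 h
    · exact n3 h.symm
  have d13 : f1 ≠ f3 := by
    rintro rfl
    rw [e1] at e3
    rcases Sym2.eq_iff.1 e3 with ⟨h, _⟩ | ⟨_, h⟩
    · exact n3 h.symm
    · exact n2 h
  have d23 : f2 ≠ f3 := by
    rintro rfl
    rw [e2] at e3
    rcases Sym2.eq_iff.1 e3 with ⟨h, _⟩ | ⟨h, _⟩
    · exact n2 h
    · exact n1 h.symm
  refine ⟨{f1, f2, f3}, ⟨fun e => z1 e + (z2 e + z3 e), fun x => ?_, fun e => ?_, fun e => ?_⟩,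
    card_le_three, ?_, ⟨f1, by simp, e1⟩⟩
  · rw [bd_add', bd_add', b1, b2, b3]
    ring
  · show z1 e + (z2 e + z3 e) = 0 ∨ z1 e + (z2 e + z3 e) = 1 ∨ z1 e + (z2 e + z3 e) = -1
    by_cases h1 : e = f1
    · subst h1
      rw [s2 e d12, s3 e d13]
      simp only [add_zero]
      exact Or.inr v1
    · rw [s1 e h1]
      by_cases h2 : e = f2
      · subst h2
        rw [s3 e d23]
        simp only [add_zero, zero_add]
        exact Or.inr v2
      · rw [s2 e h2]
        by_cases h3 : e = f3
        · subst h3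
          simp only [zero_add]
          exact Or.inr v3
        · rw [s3 e h3]
          simp
  · have h10 : (1 : ZMod 5) ≠ 0 := by decide
    have h20 : (-1 : ZMod 5) ≠ 0 := by decide
    rw [mem_insert, mem_insert, mem_singleton]
    show z1 e + (z2 e + z3 e) ≠ 0 ↔ _
    by_cases h1 : e = f1
    · subst h1
      rw [s2 e d12, s3 e d13]
      rcases v1 with h | h <;> simp [h, h10]
    · rw [s1 e h1]
      by_cases h2 : e = f2
      · subst h2
        rw [s3 e d23]
        rcases v2 with h | h <;> simp [h, h10]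
      · rw [s2 e h2]
        by_cases h3 : e = f3
        · subst h3
          rcases v3 with h | h <;> simp [h, h10]
        · rw [s3 e h3]
          simp [h1, h2, h3]
  · intro f hf
    rw [mem_insert, mem_insert, mem_singleton] at hf
    rcases hf with rfl | rfl | rfl
    · exact Or.inl e1
    · exact Or.inr (Or.inl e2)
    · exact Or.inr (Or.inr e3)

/-- enumeration of two families -/
theorem enum (A B : Finset (Finset E)) (hA : ∀ a ∈ A, a.card ≤ 11)
    (hB : ∀ b ∈ B, (b \ A.biUnion id).card ≤ 11) :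
    ∃ (m : ℕ) (C : Fin m → Finset E), (∀ i, C i ∈ A ∨ C i ∈ B) ∧
      (∀ i, (C i \ (univ.filter (fun j => j < i)).biUnion C).card ≤ 11) ∧
      ∀ e, e ∈ univ.biUnion C ↔ ∃ c, (c ∈ A ∨ c ∈ B) ∧ e ∈ c := by
  classical
  obtain ⟨l, hl⟩ : ∃ l, l = A.toList ++ B.toList := ⟨_, rfl⟩
  have hmem : ∀ c, c ∈ l ↔ (c ∈ A ∨ c ∈ B) := by
    intro c
    rw [hl, List.mem_append, mem_toList, mem_toList]
  refine ⟨l.length, fun i => l.get i, fun i => (hmem _).1 (l.get_mem i), fun i => ?_, fun e => ?_⟩
  · by_cases hi : (i : ℕ) < A.toList.length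
    · have h1 : l.get i ∈ A := by
        rw [← mem_toList, List.get_eq_getElem]
        subst hl
        rw [List.getElem_append_left hi]
        exact List.getElem_mem hi
      exact (card_le_card sdiff_subset).trans (hA _ h1)
    · have h1 : l.get i ∈ B := by
        rw [← mem_toList, List.get_eq_getElem]
        subst hl
        rw [List.getElem_append_right (by omega)]
        exact List.getElem_mem _
      refine (card_le_card (sdiff_subset_sdiff (Subset.refl _) ?_)).trans (hB _ h1)
      intro e he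
      obtain ⟨a, ha, hea⟩ := mem_biUnion.1 he
      obtain ⟨j, hj, hja⟩ := List.getElem_of_mem (mem_toList.2 ha)
      have hjl : j < l.length := by
        rw [hl, List.length_append]
        omega
      refine mem_biUnion.2 ⟨⟨j, hjl⟩, ?_, ?_⟩
      · rw [mem_filter]
        refine ⟨mem_univ _, ?_⟩
        rw [Fin.lt_def]
        show j < (i : ℕ)
        omega
      · show e ∈ l.get ⟨j, hjl⟩
        rw [List.get_eq_getElem]
        subst hl
        show e ∈ (A.toList ++ B.toList)[j]
        rw [List.getElem_append_left hj, hja]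
        exact hea
  · rw [mem_biUnion]
    constructor
    · rintro ⟨i, _, he⟩
      exact ⟨l.get i, (hmem _).1 (l.get_mem i), he⟩
    · rintro ⟨c, hc, he⟩
      obtain ⟨j, hj, hjc⟩ := List.getElem_of_mem ((hmem c).2 hc)
      refine ⟨⟨j, hj⟩, mem_univ _, ?_⟩
      show e ∈ l.get ⟨j, hj⟩
      rw [List.get_eq_getElem]
      show e ∈ l[j]
      rw [hjc]
      exact he

open Classical in
/-- the edges in triangles -/
noncomputable def TT (src dst : E → V) : Finset E := univ.filter (fun e => InT src dst e)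

theorem mem_TT {e : E} : e ∈ TT src dst ↔ InT src dst e := by
  simp [TT]

theorem tri_edge (hl : ∀ e, src e ≠ dst e)
    (hs : ∀ e e', s(src e, dst e) = s(src e', dst e') → e = e') {e : E} (he : InT src dst e) :
    ∃ C, Cyc src dst C ∧ C.card ≤ 3 ∧ C ⊆ TT src dst ∧ e ∈ C := by
  obtain ⟨c, h1, h2⟩ := he
  have h0 : Ad src dst (src e) (dst e) := ⟨e, Or.inl ⟨rfl, rfl⟩⟩
  obtain ⟨C, a1, a2, a3, f, hf, hfe⟩ := tri hl h0 h2 (Ad_symm h1)
  refine ⟨C, a1, a2, fun f hf => ?_, ?_⟩
  · rw [mem_TT]
    rcases a3 f hf with h3 | h3 | h3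
    · exact (InT_iff h3).2 ⟨c, h1, h2⟩
    · exact (InT_iff h3).2 ⟨src e, Ad_symm h0, Ad_symm h1⟩
    · exact (InT_iff h3).2 ⟨dst e, Ad_symm h2, h0⟩
  · rwa [hs f e hfe] at hf

/-- **Vertex-transitive graphs with short circuits have nowhere-zero 5-flows.** -/
theorem flow_VT (h : VT src dst d) (hd : 3 ≤ d)
    (hC : d = 3 → (∀ e, InT src dst e) ∨ ∃ C, Cyc src dst C ∧ (∃ e ∈ C, ¬ InT src dst e) ∧
      (C \ TT src dst).card ≤ 11) : FlowOn src dst ∅ ∅ := by
  classical
  have hl := h.loopless
  have hs := h.simple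
  obtain ⟨A, hA⟩ : ∃ A : Finset (Finset E), A =
    univ.filter (fun C => Cyc src dst C ∧ C ⊆ TT src dst ∧ C.card ≤ 11) := ⟨_, rfl⟩
  obtain ⟨B, hB⟩ : ∃ B : Finset (Finset E), B =
    univ.filter (fun C => Cyc src dst C ∧ (C \ TT src dst).card ≤ 11) := ⟨_, rfl⟩
  have mA : ∀ C, C ∈ A ↔ Cyc src dst C ∧ C ⊆ TT src dst ∧ C.card ≤ 11 := by
    intro C
    simp [hA]
  have mB : ∀ C, C ∈ B ↔ Cyc src dst C ∧ (C \ TT src dst).card ≤ 11 := by
    intro C
    simp [hB]
  have hAT : A.biUnion id = TT src dst := by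
    ext e
    rw [mem_biUnion]
    constructor
    · rintro ⟨C, h1, h2⟩
      exact ((mA C).1 h1).2.1 h2
    · intro he
      obtain ⟨C, h1, h2, h3, h4⟩ := tri_edge hl hs (mem_TT.1 he)
      exact ⟨C, (mA C).2 ⟨h1, h3, by omega⟩, h4⟩
  obtain ⟨m, C, c1, c2, c3⟩ := enum A B (fun a ha => ((mA a).1 ha).2.2)
    (fun b hb => by rw [hAT]; exact ((mB b).1 hb).2)
  -- the union of the cycles
  have hF : ∀ e, e ∈ univ.biUnion C ↔ ∃ c, (Cyc src dst c ∧ (c \ TT src dst).card ≤ 11) ∧ e ∈ c := by
    intro e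
    rw [c3]
    constructor
    · rintro ⟨c, h1 | h1, h2⟩
      · refine ⟨c, ⟨((mA c).1 h1).1, ?_⟩, h2⟩
        rw [sdiff_eq_empty_iff_subset.2 ((mA c).1 h1).2.1]
        simp
      · exact ⟨c, (mB c).1 h1, h2⟩
    · rintro ⟨c, h1, h2⟩
      exact ⟨c, Or.inr ((mB c).2 h1), h2⟩
  have hFT : ∀ e, InT src dst e → e ∈ univ.biUnion C := by
    intro e he
    obtain ⟨C', h1, h2, h3, h4⟩ := tri_edge hl hs he
    refine (hF e).2 ⟨C', ⟨h1, ?_⟩, h4⟩
    rw [sdiff_eq_empty_iff_subset.2 h3]
    simp
  have hFtau : ∀ (σ : Equiv.Perm V) (τ : Equiv.Perm E), Aut src dst σ →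
      (∀ e, (src (τ e) = σ (src e) ∧ dst (τ e) = σ (dst e)) ∨
      (src (τ e) = σ (dst e) ∧ dst (τ e) = σ (src e))) → ∀ (c : Finset E), Cyc src dst c →
      (c \ TT src dst).card ≤ 11 → ∀ e ∈ c, τ e ∈ univ.biUnion C := by
    intro σ τ hσ hτ c h1 h2 e he
    refine (hF _).2 ⟨c.map τ.toEmbedding, ⟨Cyc_map hl hτ h1, ?_⟩, mem_map_of_mem _ he⟩
    refine le_trans ?_ h2
    rw [← card_map τ.toEmbedding (s := c \ TT src dst)]
    refine card_le_card fun f hf => ?_
    rw [mem_sdiff] at hf
    obtain ⟨e', he', rfl⟩ := mem_map.1 hf.1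
    refine mem_map_of_mem _ (mem_sdiff.2 ⟨he', fun h3 => hf.2 ?_⟩)
    exact mem_TT.2 ((InT_tau hσ hτ e').2 (mem_TT.1 h3))
  have main : ∀ X : Finset V, X.Nonempty → X ≠ univ →
      Disjoint (Bd src dst X) (univ.biUnion C) → 4 ≤ (Bd src dst X).card := by
    intro X hX1 hX2 hdis
    by_contra hlt
    obtain ⟨b0, hb0⟩ := h.conn X hX1 hX2
    by_cases hcase : d = 3 ∧ ∃ e1, InT src dst e1
    · -- all edges are in the union of the cycles
      obtain ⟨hd3, e1, he1⟩ := hcase
      refine disjoint_left.1 hdis hb0 ?_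
      rcases hC hd3 with hall | ⟨c, hc1, ⟨e0, he0, hn0⟩, hc2⟩
      · exact hFT b0 (hall b0)
      · by_cases hbT : InT src dst b0
        · exact hFT b0 hbT
        · obtain ⟨σ, hσ, hσv⟩ := h.trans (src e0) (src b0)
          obtain ⟨τ, hτ⟩ := exists_tau h σ hσ
          by_cases heq : τ e0 = b0
          · rw [← heq]
            exact hFtau σ τ hσ hτ c hc1 hc2 e0 he0
          · exfalso
            have i1 : τ e0 ∈ Inc src dst (src b0) := by
              rw [mem_Inc]
              rcases hτ e0 with ⟨h1, _⟩ | ⟨_, h1⟩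
              · left; rw [h1, hσv]
              · right; rw [h1, hσv]
            have i2 : b0 ∈ Inc src dst (src b0) := mem_Inc.2 (Or.inl rfl)
            have t1 : ¬ InT src dst (τ e0) := fun h1 => hn0 ((InT_tau hσ hτ e0).1 h1)
            -- the triangle at `src b0`
            obtain ⟨ρ, hρ, hρv⟩ := h.trans (src e1) (src b0)
            obtain ⟨x, hx1, hx2⟩ := he1
            have a0 : Ad src dst (src b0) (ρ (dst e1)) := by
              rw [← hρv]
              exact (hρ _ _).1 ⟨e1, Or.inl ⟨rfl, rfl⟩⟩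
            have a1 : Ad src dst (src b0) (ρ x) := by
              rw [← hρv]
              exact (hρ _ _).1 hx1
            have a2 : Ad src dst (ρ (dst e1)) (ρ x) := (hρ _ _).1 hx2
            have hne := Ad_ne hl a2
            obtain ⟨g1, hg1⟩ := a0
            obtain ⟨g2, hg2⟩ := a1
            have sg1 : s(src g1, dst g1) = s(src b0, ρ (dst e1)) := by
              rcases hg1 with ⟨h1, h2⟩ | ⟨h1, h2⟩
              · rw [h1, h2]
              · rw [h1, h2, Sym2.eq_swap]
            have sg2 : s(src g2, dst g2) = s(src b0, ρ x) := by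
              rcases hg2 with ⟨h1, h2⟩ | ⟨h1, h2⟩
              · rw [h1, h2]
              · rw [h1, h2, Sym2.eq_swap]
            have tg1 : InT src dst g1 := (InT_iff sg1).2 ⟨ρ x, ⟨g2, hg2⟩, a2⟩
            have tg2 : InT src dst g2 := (InT_iff sg2).2 ⟨ρ (dst e1), ⟨g1, hg1⟩, Ad_symm a2⟩
            have j1 : g1 ∈ Inc src dst (src b0) := by
              rw [mem_Inc]
              rcases hg1 with ⟨h1, _⟩ | ⟨_, h1⟩
              · exact Or.inl h1
              · exact Or.inr h1
            have j2 : g2 ∈ Inc src dst (src b0) := by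
              rw [mem_Inc]
              rcases hg2 with ⟨h1, _⟩ | ⟨_, h1⟩
              · exact Or.inl h1
              · exact Or.inr h1
            have hg12 : g1 ≠ g2 := by
              rintro rfl
              rw [sg1] at sg2
              rcases Sym2.eq_iff.1 sg2 with ⟨_, h1⟩ | ⟨h1, h2⟩
              · exact hne h1
              · exact hne (h2.trans h1)
            have hsub : ({g1, g2, τ e0, b0} : Finset E) ⊆ Inc src dst (src b0) := by
              intro f hf
              simp only [mem_insert, mem_singleton] at hf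
              rcases hf with rfl | rfl | rfl | rfl
              · exact j1
              · exact j2
              · exact i1
              · exact i2
            have hcard : ({g1, g2, τ e0, b0} : Finset E).card = 4 := by
              rw [card_insert_of_notMem, card_insert_of_notMem, card_insert_of_notMem,
                card_singleton]
              · rw [mem_singleton]
                exact heq
              · simp only [mem_insert, mem_singleton]
                rintro (rfl | rfl)
                · exact t1 tg2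
                · exact hbT tg2
              · simp only [mem_insert, mem_singleton]
                rintro (h1 | rfl | rfl)
                · exact hg12 h1
                · exact t1 tg1
                · exact hbT tg1
            have := card_le_card hsub
            rw [hcard, h.reg, hd3] at this
            omega
    · -- small cuts are trivial
      have hcut := cuts h hd (fun hd3 a b c h1 h2 h3 => by
        obtain ⟨e, he⟩ := h1
        refine hcase ⟨hd3, e, ?_⟩
        have : s(src e, dst e) = s(a, b) := by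
          rcases he with ⟨h4, h5⟩ | ⟨h4, h5⟩
          · rw [h4, h5]
          · rw [h4, h5, Sym2.eq_swap]
        exact (InT_iff this).2 ⟨c, h3, h2⟩) X
      have n1 : 0 < X.card := card_pos.2 hX1
      have n2 : 0 < Xᶜ.card := by
        rw [card_pos, nonempty_iff_ne_empty]
        intro h5
        exact hX2 ((compl_eq_empty_iff X).1 h5)
      -- a single vertex
      have hv : ∃ v, Bd src dst X = Bd src dst {v} := by
        by_cases h1 : X.card = 1
        · obtain ⟨v, rfl⟩ := card_eq_one.1 h1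
          exact ⟨v, rfl⟩
        · by_cases h2 : Xᶜ.card = 1
          · obtain ⟨v, hv⟩ := card_eq_one.1 h2
            exact ⟨v, by rw [← hv, Bd_compl]⟩
          · exfalso
            exact hlt (hcut (by omega) (by omega))
      obtain ⟨v, hv⟩ := hv
      have hd3 : d = 3 := by
        have := Bd_single h (card_singleton v)
        rw [hv] at hlt
        omega
      have hnoT : ∀ e, ¬ InT src dst e := fun e he => hcase ⟨hd3, e, he⟩
      rcases hC hd3 with hall | ⟨c, hc1, ⟨e0, he0, hn0⟩, hc2⟩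
      · exact hnoT b0 (hall b0)
      · obtain ⟨σ, hσ, hσv⟩ := h.trans (src e0) v
        obtain ⟨τ, hτ⟩ := exists_tau h σ hσ
        refine disjoint_left.1 hdis ?_ (hFtau σ τ hσ hτ c hc1 hc2 e0 he0)
        rw [hv, mem_Bd, mem_singleton, mem_singleton]
        have hle := hl (τ e0)
        rcases hτ e0 with ⟨h1, _⟩ | ⟨_, h1⟩
        · rw [hσv] at h1
          intro h2
          exact hle (h1.trans (h2.1 h1).symm)
        · rw [hσv] at h1
          intro h2
          exact hle ((h2.2 h1).trans h1.symm)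
  refine local11 quot' lift_all V E src dst m C ?_ c2 ?_ ?_
  · intro i
    rcases c1 i with h1 | h1
    · exact ((mA _).1 h1).1
    · exact ((mB _).1 h1).1
  · intro X h1 h2 h3
    have := main X h1 h2 h3
    exact le_trans (by norm_num) this
  · intro X _ hcd
    exfalso
    have h1 := hcd 0
    have hne : (X 0).Nonempty := by
      rw [Finset.nonempty_iff_ne_empty]
      intro h
      have h2 := h1.1
      rw [h] at h2
      simp [crs] at h2
    have hnu : X 0 ≠ Finset.univ := by
      intro h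
      have h2 := h1.1
      rw [h] at h2
      simp [crs] at h2
    have h4 : 4 ≤ (crs src dst (X 0)).card := main (X 0) hne hnu h1.2
    rw [h1.1] at h4
    omega

/-- **Edge-transitive graphs with short circuits have nowhere-zero 5-flows.** -/
theorem flow_ET (hl : ∀ e, src e ≠ dst e)
    (hs : ∀ e e', s(src e, dst e) = s(src e', dst e') → e = e')
    (ht : ∀ e e', ∃ σ : Equiv.Perm V, Aut src dst σ ∧
      s(σ (src e), σ (dst e)) = s(src e', dst e'))
    {C0 : Finset E} (hC : Cyc src dst C0) (hne : C0.Nonempty) (h11 : C0.card ≤ 11) :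
    FlowOn src dst ∅ ∅ := by
  classical
  obtain ⟨A, hA⟩ : ∃ A : Finset (Finset E), A =
    univ.filter (fun C => Cyc src dst C ∧ C.card ≤ 11) := ⟨_, rfl⟩
  have mA : ∀ C, C ∈ A ↔ Cyc src dst C ∧ C.card ≤ 11 := by
    intro C
    simp [hA]
  obtain ⟨m, C, c1, c2, c3⟩ := enum A ∅ (fun a ha => ((mA a).1 ha).2)
    (fun b hb => absurd hb (notMem_empty b))
  refine lift_all V E src dst m C ?_ c2 ⟨fun _ => 0, fun v => by simp [bd], fun e he => rfl, ?_⟩
  · intro i
    rcases c1 i with h1 | h1
    · exact ((mA _).1 h1).1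
    · exact absurd h1 (notMem_empty _)
  · intro e _ he
    exfalso
    apply he
    obtain ⟨e0, he0⟩ := hne
    obtain ⟨σ, hσ, hσe⟩ := ht e0 e
    obtain ⟨τ, hτ⟩ := exists_tau' hs σ hσ
    have h1 : τ e0 = e := by
      apply hs
      rw [← hσe]
      rcases hτ e0 with ⟨h1, h2⟩ | ⟨h1, h2⟩
      · rw [h1, h2]
      · rw [h1, h2, Sym2.eq_swap]
    refine (c3 e).2 ⟨C0.map τ.toEmbedding, Or.inl ((mA _).2 ⟨Cyc_map hl hτ hC, ?_⟩), ?_⟩
    · rw [card_map]
      exact h11
    · rw [← h1]
      exact mem_map_of_mem _ he0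

end

end Pool.Agent.Q164.VT
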